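import Mathlib

namespace Pool.Agent.Results.MP_5ca9a4_co.Counter

open SimpleGraph Finset

variable {V : Type}

/-- no cycle minus one edge is monochromatic -/
def Woody (G : SimpleGraph V) {k : ℕ} (c : Sym2 V → Fin k) : Prop :=
  ∀ (v : V) (C : G.Walk v v), C.IsCycle → ∀ e ∈ C.edges, ¬ ∃ a, ∀ e' ∈ C.edges, e' ≠ e → c e' = a

/-- the strong arboricity -/
noncomputable def zeta (G : SimpleGraph V) : ℕ := sInf {k | ∃ c : Sym2 V → Fin k, Woody G c}

/-- the colouring number -/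
noncomputable def col (G : SimpleGraph V) : ℕ :=
  sInf {r | ∃ f : V → ℕ, f.Injective ∧ ∀ v, {u | G.Adj v u ∧ f u < f v}.ncard < r}

lemma c4 {G : SimpleGraph V} {k : ℕ} {c : Sym2 V → Fin k} (h : Woody G c) {x y z t : V} (h1 : G.Adj x y)
    (h2 : G.Adj y z) (h3 : G.Adj z t) (h4 : G.Adj t x) (a : x ≠ z) (b : y ≠ t) (e1 : c s(x, y) = c s(y, z))
    (e2 : c s(y, z) = c s(z, t)) : False := by
  have := h1.ne; have := h2.ne; have := h3.ne; have := h4.ne
  refine h x (.cons h1 (.cons h2 (.cons h3 (.cons h4 .nil)))) ?_ s(t, x) (by simp) ⟨c s(y, z), ?_⟩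
  · simp [Walk.isCycle_def, Walk.isTrail_def]; grind
  · simp [e1, ← e2]

abbrev W := Fin 2 ⊕ Fin 10 ⊕ Fin 10 × Fin 10

def r : W → W → Prop
  | .inr (.inl _), .inl _ => True
  | .inr (.inr p), .inr (.inl i) => i = p.1 ∨ i = p.2
  | _, _ => False

def G : SimpleGraph W := fromRel r

def f : W → ℕ
  | .inl i => i
  | .inr (.inl i) => 2 + i
  | .inr (.inr p) => 12 + 10 * p.1 + p.2

theorem result : ∃ (V : Type) (_ : Fintype V) (G : SimpleGraph V), col G < zeta G := by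
  refine ⟨W, inferInstance, G, lt_of_le_of_lt (b := 3) (Nat.sInf_le ⟨f, ?_, fun v => ?_⟩)
    (Nat.lt_of_succ_le (le_csInf (s := {k | ∃ c : Sym2 W → Fin k, Woody G c})
      ⟨_, Fintype.equivFin _, fun v C hC e he ⟨a, ha⟩ => ?_⟩ ?_))⟩
  · rintro (i | i | ⟨i, j⟩) (k | k | ⟨k, l⟩) <;> simp [f, Fin.ext_iff] <;> omega
  · have : ∀ x y : W, {u | G.Adj v u ∧ f u < f v} ⊆ {x, y} → {u | G.Adj v u ∧ f u < f v}.ncard < 3 :=
      fun x y h => (Set.ncard_le_ncard h).trans_lt ((Set.ncard_insert_le _ _).trans_lt (by simp))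
    rcases v with i | i | ⟨i, j⟩
    · refine this (.inl 0) (.inl 1) ?_
      rintro (k | k | ⟨k, l⟩) <;> simp [G, r, f] <;> omega
    · refine this (.inl 0) (.inl 1) ?_
      rintro (k | k | ⟨k, l⟩) <;> simp [G, r, f] <;> omega
    · refine this (.inr (.inl i)) (.inr (.inl j)) ?_
      rintro (k | k | ⟨k, l⟩) <;> simp +contextual [G, r, f]
  · have h1 := hC.three_le_length
    have h2 : (C.edges.toFinset.erase e).card ≤ 1 := card_le_one.2 fun x hx y hy => by
      simp only [mem_erase, List.mem_toFinset] at hx hy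
      exact (Fintype.equivFin _).injective ((ha x hx.2 hx.1).trans (ha y hy.2 hy.1).symm)
    rw [card_erase_of_mem (by simpa), List.toFinset_card_of_nodup hC.edges_nodup, Walk.length_edges] at h2
    omega
  · rintro k ⟨c, h⟩
    by_contra! hk
    let w : Fin 10 → W := fun i => .inr (.inl i)
    obtain ⟨i, j, n, e⟩ := Fintype.exists_ne_map_eq_of_card_lt
      (fun i => (c s(w i, .inl 0), c s(w i, .inl 1))) (by simp; nlinarith)
    simp only [Prod.mk.injEq] at e
    have a : ∀ i t, G.Adj (w i) (.inl t) := by simp [G, r, w]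
    have b : ∀ i j, G.Adj (w i) (.inr (.inr (i, j))) ∧ G.Adj (w j) (.inr (.inr (i, j))) := by simp [G, r, w]
    have nw : w i ≠ w j := by simpa [w] using n
    have k1 : ∀ x, G.Adj (w i) x → G.Adj (w j) x → ∀ y, G.Adj (w i) y → G.Adj (w j) y → x ≠ y →
        c s(w i, x) = c s(w j, x) → c s(w i, y) ≠ c s(w j, x) ∧ c s(w j, y) ≠ c s(w j, x) :=
      fun x x1 x2 y y1 y2 n e => ⟨fun d => c4 h y1.symm x1 x2.symm y2 n.symm nw
        (by rw [Sym2.eq_swap, d, e]) (by rw [e, Sym2.eq_swap]), fun d => c4 h y2.symm x2 x1.symm y1 n.symm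
          nw.symm (by rw [Sym2.eq_swap, d]) (by rw [← e, Sym2.eq_swap])⟩
    have p1 := k1 _ (a i 0) (a j 0) _ (a i 1) (a j 1) (by simp) e.1
    have p2 := k1 _ (a i 0) (a j 0) _ (b i j).1 (b i j).2 (by simp) e.1
    have p3 := k1 _ (a i 1) (a j 1) _ (b i j).1 (b i j).2 (by simp) e.2
    have p4 := k1 _ (a i 0) (a j 0) _ (b j i).2 (b j i).1 (by simp) e.1
    have p5 := k1 _ (a i 1) (a j 1) _ (b j i).2 (b j i).1 (by simp) e.2
    have p6 := k1 _ (b i j).1 (b i j).2 _ (b j i).2 (b j i).1 (by simp [n]) (by omega)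
    omega

end Pool.Agent.Results.MP_5ca9a4_co.Counter
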